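import Pool.Agent.Helper87.MS.Formula

/-!
# Sums of multilinear formulas: the two inductions
-/

set_option autoImplicit false

namespace Pool.Agent.Helper87.MS

open Finset

variable {n : ℕ} {C K : Type} [Field K]

theorem dep_one {V : Finset (Fin n)} : Dep V (1 : C → (Fin n → Bool) → K) := fun _ _ _ _ => rfl

theorem sdiff_card_bounds {Z V₁ : Finset (Fin n)} (h : V₁ ⊆ Z) :
    (Z \ V₁).card = Z.card - V₁.card := card_sdiff_of_subset h

/-- small blocks -/
theorem claimA {w n₀ q : ℕ} {ρ : ℝ} (hρ0 : 0 < ρ) (hn₀ : 1 ≤ n₀) (hw : w ≤ n₀)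
    (hβ : ∀ m : ℕ, n₀ ≤ m → 3 / Real.sqrt m ≤ ρ)
    (h6 : ∀ j k : ℕ, j + 1 ≤ q → 3 ^ j * n₀ ≤ k → ((Real.sqrt 2) ^ k)⁻¹ ≤ ρ ^ (j + 1)) :
    ∀ j ≤ q, ∀ (Z : Finset (Fin n)), 3 ^ j * n₀ ≤ Z.card →
      ∀ (s : ℕ) (V : Finset (Fin n)) (f : C → (Fin n → Bool) → K), Fm w s V f → V ⊆ Z →
        Pot Z f (s * ρ ^ j) := by
  intro j
  induction j with
  | zero =>
    intro _ Z hZ s V f hf hV
    rw [pow_zero, mul_one]
    have h1 : (1 : ℝ) ≤ s := by exact_mod_cast hf.one_le
    exact (pot_dep' (hf.dep.mono hV)).mono h1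
  | succ j ihj =>
    intro hjq Z hZ s
    induction s using Nat.strong_induction_on with
    | _ s ihs =>
      intro V f hf hV
      have hs1 : (1 : ℝ) ≤ s := by exact_mod_cast hf.one_le
      have hpow : 3 ^ (j + 1) * n₀ = 3 * (3 ^ j * n₀) := by ring
      have h3j : 1 ≤ 3 ^ j := Nat.one_le_pow _ _ (by norm_num)
      have hn0' : n₀ ≤ 3 ^ j * n₀ := Nat.le_mul_of_pos_left _ (by omega)
      have hρj : 0 < ρ ^ (j + 1) := pow_pos hρ0 _
      by_cases hc : V.card ≤ 2 * Z.card / 3
      · have h1 := (pot_dep' hf.dep).ambient hV zero_le_one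
        refine h1.mono ?_
        rw [one_mul]
        have h2 : 3 ^ j * n₀ ≤ (Z \ V).card := by
          rw [sdiff_card_bounds hV]
          omega
        exact (h6 j _ hjq h2).trans (le_mul_of_one_le_left hρj.le hs1)
      · obtain ⟨s₁, V₁, v, D, R, hv, hVV, hc1, hc2, hD, hR, rfl⟩ :=
          hf.split (N := 2 * Z.card / 3) (by omega) (by omega)
        have hVZ : V₁ ⊆ Z := hVV.trans hV
        have h1 : Pot V₁ v (s₁ * ρ ^ j) := ihj (by omega) V₁ (by omega) s₁ V₁ v hv (Subset.refl _)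
        have hcard : (Z \ V₁).card = Z.card - V₁.card := sdiff_card_bounds hVZ
        have hk : 3 ^ j * n₀ ≤ (Z \ V₁).card := by omega
        have hDd : Dep (Z \ V₁) D := by
          rcases hD with rfl | ⟨t, W, hW, _, hWV, hWd⟩
          · exact dep_one
          · exact hW.dep.mono (subset_sdiff.2 ⟨hWV.trans hV, hWd.symm⟩)
        have h2 : Pot (Z \ V₁) D ρ :=
          (pot_dep (by omega) hDd).mono (hβ _ (hn0'.trans hk))
        have h3 : Pot Z (v * D) (s₁ * ρ ^ (j + 1)) := by
          have h4 := Pot.mul (disjoint_sdiff : Disjoint V₁ (Z \ V₁)) (by positivity) h1 h2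
          rw [union_sdiff_of_subset hVZ, mul_assoc, ← pow_succ] at h4
          exact h4
        have hs₁ := hv.one_le
        rcases hR with ⟨rfl, hs⟩ | ⟨t, W, hW, hst, hWV⟩
        · rw [add_zero]
          refine h3.mono (mul_le_mul_of_nonneg_right ?_ hρj.le)
          exact_mod_cast hs
        · have h5 : Pot Z R (t * ρ ^ (j + 1)) := ihs t (by omega) W R hW (hWV.trans hV)
          refine (h3.add h5).mono ?_
          rw [← add_mul]
          refine mul_le_mul_of_nonneg_right ?_ hρj.le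
          exact_mod_cast hst

/-- large blocks -/
theorem claimB {w N₀ S : ℕ} {σ κ : ℝ} (hσ : (S : ℝ) ≤ σ) (hσ0 : 0 < σ) (hN₀ : 1 ≤ N₀)
    (hw : w ≤ N₀) (hκ : ∀ k : ℕ, N₀ ≤ k → ((Real.sqrt 2) ^ k)⁻¹ ≤ Real.exp (-(κ * k)))
    (hA : ∀ (Z : Finset (Fin n)), N₀ ≤ Z.card → Z.card ≤ 3 * N₀ →
      ∀ (s : ℕ) (V : Finset (Fin n)) (f : C → (Fin n → Bool) → K), Fm w s V f → V ⊆ Z →
        Pot Z f (s * (σ⁻¹ * Real.exp (-(κ * Z.card)))))
    (h2 : ∀ m k : ℕ, 3 * N₀ ≤ m → m ≤ 3 * k → ((Real.sqrt 2) ^ k)⁻¹ ≤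
      σ⁻¹ * Real.exp (-(κ * m))) :
    ∀ (m : ℕ) (Z : Finset (Fin n)), Z.card = m → N₀ ≤ m →
      ∀ (s : ℕ), s ≤ S → ∀ (V : Finset (Fin n)) (f : C → (Fin n → Bool) → K),
        Fm w s V f → V ⊆ Z → Pot Z f (s * (σ⁻¹ * Real.exp (-(κ * m)))) := by
  intro m
  induction m using Nat.strong_induction_on with
  | _ m ihm =>
    intro Z hZ hm s
    induction s using Nat.strong_induction_on with
    | _ s ihs =>
      intro hsS V f hf hV
      by_cases hm3 : m ≤ 3 * N₀
      · rw [← hZ]
        exact hA Z (by omega) (by omega) s V f hf hV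
      have hs1 : (1 : ℝ) ≤ s := by exact_mod_cast hf.one_le
      have hE : 0 < σ⁻¹ * Real.exp (-(κ * m)) := by positivity
      by_cases hc : V.card ≤ 2 * m / 3
      · have h1 := (pot_dep' hf.dep).ambient hV zero_le_one
        refine h1.mono ?_
        rw [one_mul]
        have h3 : m ≤ 3 * (Z \ V).card := by
          rw [sdiff_card_bounds hV, hZ]
          omega
        exact (h2 m _ (by omega) h3).trans (le_mul_of_one_le_left hE.le hs1)
      · obtain ⟨s₁, V₁, v, D, R, hv, hVV, hc1, hc2, hD, hR, rfl⟩ :=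
          hf.split (N := 2 * m / 3) (by omega) (by omega)
        have hVZ : V₁ ⊆ Z := hVV.trans hV
        have hcard : (Z \ V₁).card = m - V₁.card := by rw [sdiff_card_bounds hVZ, hZ]
        have hs₁ := hv.one_le
        have hs₁s : s₁ ≤ s := by
          rcases hR with ⟨_, hs⟩ | ⟨t, W, _, hst, _⟩
          · exact hs
          · omega
        have h1 : Pot V₁ v (s₁ * (σ⁻¹ * Real.exp (-(κ * V₁.card)))) :=
          ihm V₁.card (by omega) V₁ rfl (by omega) s₁ (by omega) V₁ v hv (Subset.refl _)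
        have h3 : Pot (Z \ V₁) D (Real.exp (-(κ * (Z \ V₁).card))) := by
          rcases hD with rfl | ⟨t, W, hW, hts, hWV, hWd⟩
          · exact (pot_one _).mono (hκ _ (by omega))
          · have h4 := ihm (Z \ V₁).card (by omega) (Z \ V₁) rfl (by omega) t (by omega) W D hW
              (subset_sdiff.2 ⟨hWV.trans hV, hWd.symm⟩)
            refine h4.mono ?_
            rw [← mul_assoc]
            refine mul_le_of_le_one_left (Real.exp_pos _).le ?_
            rw [← div_eq_mul_inv, div_le_one hσ0]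
            refine le_trans ?_ hσ
            exact_mod_cast hts.trans hsS
        have h5 : Pot Z (v * D) (s₁ * (σ⁻¹ * Real.exp (-(κ * m)))) := by
          have h4 := Pot.mul (disjoint_sdiff : Disjoint V₁ (Z \ V₁)) (by positivity) h1 h3
          rw [union_sdiff_of_subset hVZ] at h4
          refine h4.mono (le_of_eq ?_)
          have h6 : (m : ℝ) = V₁.card + (Z \ V₁).card := by
            rw [hcard]
            have : V₁.card ≤ m := by omega
            push_cast [Nat.cast_sub this]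
            ring
          rw [h6, mul_assoc, mul_assoc, ← Real.exp_add]
          congr 3
          ring
        rcases hR with ⟨rfl, hs⟩ | ⟨t, W, hW, hst, hWV⟩
        · rw [add_zero]
          refine h5.mono (mul_le_mul_of_nonneg_right ?_ hE.le)
          exact_mod_cast hs
        · have h7 := ihs t (by omega) (by omega) W R hW (hWV.trans hV)
          refine (h5.add h7).mono ?_
          rw [← add_mul]
          refine mul_le_mul_of_nonneg_right ?_ hE.le
          exact_mod_cast hst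

end Pool.Agent.Helper87.MS
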