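import Pool.Agent.Helper87.MS.Pot

/-!
# Sums of multilinear formulas: formulas and their decomposition
-/

set_option autoImplicit false

namespace Pool.Agent.Helper87.MS

open Finset

variable {n : ℕ} {C K : Type} [Field K]

/-- functions with a formula: number of leaves, set of the variables; a leaf is any function of at
most `w` variables and the context; product gates multiply formulas in disjoint variables -/
inductive Fm (w : ℕ) : ℕ → Finset (Fin n) → (C → (Fin n → Bool) → K) → Prop
  | leaf (W : Finset (Fin n)) (f : C → (Fin n → Bool) → K) (hW : W.card ≤ w) (hf : Dep W f) :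
      Fm w 1 W f
  | add (s t : ℕ) (V W : Finset (Fin n)) (f g : C → (Fin n → Bool) → K) (hf : Fm w s V f)
      (hg : Fm w t W g) : Fm w (s + t) (V ∪ W) (f + g)
  | mul (s t : ℕ) (V W : Finset (Fin n)) (f g : C → (Fin n → Bool) → K) (hf : Fm w s V f)
      (hg : Fm w t W g) (hd : Disjoint V W) : Fm w (s + t) (V ∪ W) (f * g)

theorem Fm.one_le {w s : ℕ} {V : Finset (Fin n)} {f : C → (Fin n → Bool) → K}
    (h : Fm w s V f) : 1 ≤ s := by
  induction h with
  | leaf => exact le_rfl
  | add => omega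
  | mul => omega

theorem Dep.mono {V W : Finset (Fin n)} (h : V ⊆ W) {f : C → (Fin n → Bool) → K} (hf : Dep V f) :
    Dep W f := fun c x x' hx => hf c x x' fun a ha => hx a (h ha)

theorem Fm.dep {w s : ℕ} {V : Finset (Fin n)} {f : C → (Fin n → Bool) → K}
    (h : Fm w s V f) : Dep V f := by
  induction h with
  | leaf W f hW hf => exact hf
  | add s t V W f g hf hg ihf ihg =>
    intro c x x' hx
    show f c x + g c x = f c x' + g c x'
    rw [ihf.mono subset_union_left c x x' hx, ihg.mono subset_union_right c x x' hx]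
  | mul s t V W f g hf hg hd ihf ihg =>
    intro c x x' hx
    show f c x * g c x = f c x' * g c x'
    rw [ihf.mono subset_union_left c x x' hx, ihg.mono subset_union_right c x x' hx]

/-- the decomposition `f = v * D + R` -/
def Res (w N s : ℕ) (V : Finset (Fin n)) (f : C → (Fin n → Bool) → K) : Prop :=
  ∃ (s₁ : ℕ) (V₁ : Finset (Fin n)) (v D R : C → (Fin n → Bool) → K),
    Fm w s₁ V₁ v ∧ V₁ ⊆ V ∧ V₁.card ≤ N ∧ N < 2 * V₁.card ∧
    (D = 1 ∨ ∃ t W, Fm w t W D ∧ t ≤ s ∧ W ⊆ V ∧ Disjoint V₁ W) ∧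
    (R = 0 ∧ s₁ ≤ s ∨ ∃ t W, Fm w t W R ∧ s₁ + t ≤ s ∧ W ⊆ V) ∧
    f = v * D + R

theorem Res.add {w N s t : ℕ} {V W : Finset (Fin n)} {f g : C → (Fin n → Bool) → K}
    (hf : Fm w s V f) (hg : Fm w t W g) (h2 : N < 2 * V.card)
    (h : V.card ≤ N ∨ Res w N s V f) : Res w N (s + t) (V ∪ W) (f + g) := by
  rcases h with h | ⟨s₁, V₁, v, D, R, h1, h3, h4, h5, h6, h7, rfl⟩
  · exact ⟨s, V, f, 1, g, hf, subset_union_left, h, h2, Or.inl rfl,
      Or.inr ⟨t, W, hg, le_rfl, subset_union_right⟩, by rw [mul_one]⟩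
  · refine ⟨s₁, V₁, v, D, R + g, h1, h3.trans subset_union_left, h4, h5, ?_, ?_, by rw [add_assoc]⟩
    · rcases h6 with h6 | ⟨t', W', h8, h9, h10, h11⟩
      · exact Or.inl h6
      · exact Or.inr ⟨t', W', h8, by omega, h10.trans subset_union_left, h11⟩
    · rcases h7 with ⟨rfl, h8⟩ | ⟨t', W', h8, h9, h10⟩
      · exact Or.inr ⟨t, W, by rwa [zero_add], by omega, subset_union_right⟩
      · exact Or.inr ⟨t' + t, W' ∪ W, Fm.add _ _ _ _ _ _ h8 hg, by omega,
          union_subset_union h10 (Subset.refl _)⟩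

theorem Res.mul {w N s t : ℕ} {V W : Finset (Fin n)} {f g : C → (Fin n → Bool) → K}
    (hf : Fm w s V f) (hg : Fm w t W g) (hd : Disjoint V W) (h2 : N < 2 * V.card)
    (h : V.card ≤ N ∨ Res w N s V f) : Res w N (s + t) (V ∪ W) (f * g) := by
  rcases h with h | ⟨s₁, V₁, v, D, R, h1, h3, h4, h5, h6, h7, rfl⟩
  · exact ⟨s, V, f, g, 0, hf, subset_union_left, h, h2,
      Or.inr ⟨t, W, hg, by omega, subset_union_right, hd⟩,
      Or.inl ⟨rfl, by omega⟩, by rw [add_zero]⟩
  · have hd1 : Disjoint V₁ W := hd.mono_left h3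
    refine ⟨s₁, V₁, v, D * g, R * g, h1, h3.trans subset_union_left, h4, h5, ?_, ?_, by ring⟩
    · rcases h6 with rfl | ⟨t', W', h8, h9, h10, h11⟩
      · exact Or.inr ⟨t, W, by rwa [one_mul], by omega, subset_union_right, hd1⟩
      · exact Or.inr ⟨t' + t, W' ∪ W, Fm.mul _ _ _ _ _ _ h8 hg (hd.mono_left h10), by omega,
          union_subset_union h10 (Subset.refl _), disjoint_union_right.2 ⟨h11, hd1⟩⟩
    · rcases h7 with ⟨rfl, h8⟩ | ⟨t', W', h8, h9, h10⟩
      · exact Or.inl ⟨zero_mul _, by omega⟩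
      · exact Or.inr ⟨t' + t, W' ∪ W, Fm.mul _ _ _ _ _ _ h8 hg (hd.mono_left h10), by omega,
          union_subset_union h10 (Subset.refl _)⟩

/-- existence of the decomposition -/
theorem Fm.split {w N : ℕ} (hw : w ≤ N) {s : ℕ} {V : Finset (Fin n)}
    {f : C → (Fin n → Bool) → K} (h : Fm w s V f) : N < V.card → Res w N s V f := by
  induction h with
  | leaf W f hW hf =>
    intro h
    omega
  | add s t V W f g hf hg ihf ihg =>
    intro h
    have h0 := card_union_le V W
    rcases le_total W.card V.card with hc | hc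
    · exact Res.add hf hg (by omega) ((Nat.lt_or_ge N V.card).elim (fun h => Or.inr (ihf h)) Or.inl)
    · have := Res.add hg hf (by omega : N < 2 * W.card)
        ((Nat.lt_or_ge N W.card).elim (fun h => Or.inr (ihg h)) Or.inl)
      rwa [add_comm t s, add_comm g f, union_comm W V] at this
  | mul s t V W f g hf hg hd ihf ihg =>
    intro h
    have h0 := card_union_le V W
    rcases le_total W.card V.card with hc | hc
    · exact Res.mul hf hg hd (by omega)
        ((Nat.lt_or_ge N V.card).elim (fun h => Or.inr (ihf h)) Or.inl)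
    · have := Res.mul hg hf hd.symm (by omega : N < 2 * W.card)
        ((Nat.lt_or_ge N W.card).elim (fun h => Or.inr (ihg h)) Or.inl)
      rwa [add_comm t s, mul_comm g f, union_comm W V] at this

end Pool.Agent.Helper87.MS
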