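import Pool.Agent.Helper87.MS.Params
import Pool.Agent.Helper97.Form.Perm

/-!
# Sums of multilinear formulas: the matrices of a pairing
-/

set_option autoImplicit false

namespace Pool.Agent.Helper87.MS

open Finset Pool.Agent.Helper87.D3

section Perm

variable {n : ℕ} {A : Type} [CommRing A]

/-- the permanent of a diagonal matrix plus the matrix of a partial pairing -/
theorem perm_pair (S T : Finset (Fin n)) (hd : Disjoint S T) (τ : Fin n → Fin n)
    (hS : ∀ a ∈ S, τ a ∈ T) (hT : ∀ a ∈ T, τ a ∈ S) (hτ : ∀ a, τ (τ a) = a)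
    (hfix : ∀ a, a ∉ S → a ∉ T → τ a = a) (d : Fin n → A)
    (hd1 : ∀ a, a ∉ S → a ∉ T → d a = 1) :
    (Matrix.of fun a b => if a = b then d a else if b = τ a then 1 else 0 :
      Matrix (Fin n) (Fin n) A).permanent = ∏ a ∈ S, (d a * d (τ a) + 1) := by
  classical
  apply Helper97.Form.perm_of_forms
  intro B _ f x hx
  have hrow : ∀ a, τ a ≠ a → ∑ b, f ((Matrix.of fun a b => if a = b then d a else
      if b = τ a then 1 else 0 : Matrix (Fin n) (Fin n) A) a b) * x b =
      f (d a) * x a + x (τ a) := by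
    intro a ha
    have h1 : ∀ b, f ((Matrix.of fun a b => if a = b then d a else
        if b = τ a then 1 else 0 : Matrix (Fin n) (Fin n) A) a b) * x b =
        (if a = b then f (d a) * x b else 0) + (if b = τ a then x b else 0) := by
      intro b
      rw [Matrix.of_apply]
      by_cases h2 : a = b
      · subst h2
        rw [if_pos rfl, if_pos rfl, if_neg (Ne.symm ha), add_zero]
      · rw [if_neg h2, if_neg h2, zero_add]
        split_ifs
        · rw [map_one, one_mul]
        · rw [map_zero, zero_mul]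
    rw [sum_congr rfl fun b _ => h1 b, sum_add_distrib, sum_ite_eq, if_pos (mem_univ a),
      sum_ite_eq', if_pos (mem_univ _)]
  have hrow' : ∀ a, a ∉ S → a ∉ T → ∑ b, f ((Matrix.of fun a b => if a = b then d a else
      if b = τ a then 1 else 0 : Matrix (Fin n) (Fin n) A) a b) * x b = x a := by
    intro a h1 h2
    rw [Fintype.sum_eq_single a]
    · rw [Matrix.of_apply, if_pos rfl, hd1 a h1 h2, map_one, one_mul]
    · intro b hb
      rw [Matrix.of_apply, if_neg (Ne.symm hb), hfix a h1 h2, if_neg hb, map_zero, zero_mul]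
  have hneS : ∀ a ∈ S, τ a ≠ a := fun a ha h => disjoint_left.1 hd ha (h ▸ hS a ha)
  have hneT : ∀ a ∈ T, τ a ≠ a := fun a ha h => disjoint_left.1 hd (h ▸ hT a ha) ha
  have hprod : ∀ g : Fin n → B, ∏ a, g a = (∏ a ∈ S, g a) * (∏ a ∈ S, g (τ a)) *
      ∏ a ∈ univ \ (S ∪ T), g a := by
    intro g
    have h1 : ∏ a ∈ S, g (τ a) = ∏ a ∈ T, g a := by
      refine prod_nbij' τ τ hS hT (fun a _ => hτ a) (fun a _ => hτ a) (fun a _ => rfl)
    rw [h1, ← prod_union hd, mul_comm, prod_sdiff (subset_univ _)]
  rw [hprod, hprod x]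
  have e1 : ∀ a ∈ S, ∑ b, f ((Matrix.of fun a b => if a = b then d a else
      if b = τ a then 1 else 0 : Matrix (Fin n) (Fin n) A) a b) * x b =
      f (d a) * x a + x (τ a) := fun a ha => hrow a (hneS a ha)
  have e2 : ∀ a ∈ S, ∑ b, f ((Matrix.of fun a b => if a = b then d a else
      if b = τ a then 1 else 0 : Matrix (Fin n) (Fin n) A) (τ a) b) * x b =
      f (d (τ a)) * x (τ a) + x a := by
    intro a ha
    rw [hrow (τ a) (hneT _ (hS a ha)), hτ]
  have e3 : ∀ a ∈ univ \ (S ∪ T), ∑ b, f ((Matrix.of fun a b => if a = b then d a else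
      if b = τ a then 1 else 0 : Matrix (Fin n) (Fin n) A) a b) * x b = x a := by
    intro a ha
    rw [mem_sdiff, mem_union, not_or] at ha
    exact hrow' a ha.2.1 ha.2.2
  rw [prod_congr rfl e1, prod_congr rfl e2, prod_congr rfl e3, map_prod, ← prod_mul_distrib,
    ← prod_mul_distrib, ← mul_assoc, ← prod_mul_distrib]
  congr 1
  refine prod_congr rfl fun a _ => ?_
  rw [map_add, map_mul, map_one]
  linear_combination (f (d (τ a))) * hx (τ a) + f (d a) * hx a

end Perm

section Tri

variable {n : ℕ} {K : Type} [Field K]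

/-- a triangular pattern has large rank -/
theorem card_le_of_tri {N : ℕ} (I : Finset (Finset (Fin n)))
    (M : Finset (Fin n) → Finset (Fin n) → K) (h0 : ∀ p ∈ I, ∀ q ∈ I, ¬ p ⊆ q → M p q = 0)
    (h1 : ∀ p ∈ I, M p p ≠ 0) (a b : Fin N → Finset (Fin n) → K)
    (hM : ∀ p q, M p q = ∑ i, a i p * b i q) : I.card ≤ N := by
  classical
  let φ : (↥I → K) →ₗ[K] (Fin N → K) :=
    { toFun := fun v i => ∑ q : ↥I, b i q * v q
      map_add' := fun v w => by
        ext i
        simp only [Pi.add_apply, mul_add, sum_add_distrib]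
      map_smul' := fun c v => by
        ext i
        simp only [Pi.smul_apply, smul_eq_mul, RingHom.id_apply, mul_sum]
        exact sum_congr rfl fun q _ => by ring }
  have hinj : Function.Injective φ := by
    rw [← LinearMap.ker_eq_bot, LinearMap.ker_eq_bot']
    intro v hv
    by_contra hne
    have hex : (univ.filter fun q : ↥I => v q ≠ 0).Nonempty := by
      by_contra h
      rw [not_nonempty_iff_eq_empty, filter_eq_empty_iff] at h
      apply hne
      ext q
      simpa using h (mem_univ q)
    obtain ⟨q₀, hq₀, hmax⟩ := exists_max_image _ (fun q : ↥I => q.1.card) hex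
    rw [mem_filter] at hq₀
    have h2 : ∑ q : ↥I, M q₀ q * v q = 0 := by
      have h3 : ∀ q : ↥I, M q₀ q * v q = ∑ i, a i q₀ * (b i q * v q) := by
        intro q
        rw [hM, sum_mul]
        exact sum_congr rfl fun i _ => by ring
      rw [sum_congr rfl fun q _ => h3 q, sum_comm]
      refine sum_eq_zero fun i _ => ?_
      rw [← mul_sum]
      have h4 : ∑ q : ↥I, b i q * v q = 0 := congrFun hv i
      rw [h4, mul_zero]
    rw [Fintype.sum_eq_single q₀] at h2
    · exact mul_ne_zero (h1 _ q₀.2) hq₀.2 h2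
    · intro q hq
      by_cases hv0 : v q = 0
      · rw [hv0, mul_zero]
      · rw [h0 _ q₀.2 _ q.2, zero_mul]
        intro hsub
        have h5 := hmax q (mem_filter.2 ⟨mem_univ _, hv0⟩)
        exact hq (Subtype.ext (eq_of_subset_of_card_le hsub h5).symm)
  have h6 := LinearMap.finrank_le_finrank_of_injective hinj
  rw [Module.finrank_fintype_fun_eq_card, Module.finrank_fintype_fun_eq_card, Fintype.card_coe,
    Fintype.card_fin] at h6
  exact h6

end Tri

section Pattern

variable {n : ℕ}

/-- everything except the bits: entries off the diagonal and two values for every diagonal entry -/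
abbrev Ctx (n : ℕ) : Type := (Fin n → Fin n → ℤ) × (Fin n → ℤ) × (Fin n → ℤ)

/-- the matrix of a context and of `n` bits -/
def build (c : Ctx n) (x : Fin n → Bool) : Matrix (Fin n) (Fin n) ℤ :=
  Matrix.of fun a b => if a = b then (if x a then c.2.1 a else c.2.2 a) else c.1 a b

/-- the row point of a set -/
def rowPt (p : Finset (Fin n)) : Fin n → Bool := fun a => decide (a ∈ p)

/-- for every set `S` of half the size there is a context and column points for which the permanent
has a triangular pattern -/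
theorem exists_ctx (S : Finset (Fin n)) (hS : 2 * S.card ≤ n) :
    ∃ (c : Ctx n) (z : Finset (Fin n) → Fin n → Bool),
      (∀ x a b, build c x a b = -1 ∨ build c x a b = 0 ∨ build c x a b = 1) ∧
      ∀ (K : Type) [Field K], ∀ p ⊆ S, ∀ q ⊆ S,
        ((build c (mix S (rowPt p) (z q))).map (Int.cast : ℤ → K)).permanent =
          if p ⊆ q then 1 else 0 := by
  classical
  have hcompl : S.card ≤ (univ \ S).card := by
    rw [card_sdiff_of_subset (subset_univ S), card_univ, Fintype.card_fin]
    omega
  obtain ⟨T, hTS, hTc⟩ := exists_subset_card_eq hcompl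
  have hd : Disjoint S T := (disjoint_sdiff : Disjoint S (univ \ S)).mono_right hTS
  let e : ↥S ≃ ↥T := equivOfCardEq hTc.symm
  let τ : Fin n → Fin n := fun a => if h : a ∈ S then (e ⟨a, h⟩).1 else
    if h' : a ∈ T then (e.symm ⟨a, h'⟩).1 else a
  have hτS : ∀ a (h : a ∈ S), τ a = (e ⟨a, h⟩).1 := fun a h => dif_pos h
  have hτT : ∀ a (h : a ∈ T), τ a = (e.symm ⟨a, h⟩).1 := by
    intro a h
    have h1 : a ∉ S := fun h' => disjoint_left.1 hd h' h
    show (if h : a ∈ S then (e ⟨a, h⟩).1 else if h' : a ∈ T then (e.symm ⟨a, h'⟩).1 else a) = _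
    rw [dif_neg h1, dif_pos h]
  have hfix : ∀ a, a ∉ S → a ∉ T → τ a = a := by
    intro a h1 h2
    show (if h : a ∈ S then (e ⟨a, h⟩).1 else if h' : a ∈ T then (e.symm ⟨a, h'⟩).1 else a) = _
    rw [dif_neg h1, dif_neg h2]
  have hS' : ∀ a ∈ S, τ a ∈ T := fun a ha => by rw [hτS a ha]; exact (e ⟨a, ha⟩).2
  have hT' : ∀ a ∈ T, τ a ∈ S := fun a ha => by rw [hτT a ha]; exact (e.symm ⟨a, ha⟩).2
  have hτ : ∀ a, τ (τ a) = a := by
    intro a
    by_cases h1 : a ∈ S
    · rw [hτT (τ a) (hS' a h1)]
      have h2 : (⟨τ a, hS' a h1⟩ : ↥T) = e ⟨a, h1⟩ := Subtype.ext (hτS a h1)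
      rw [h2, Equiv.symm_apply_apply]
    · by_cases h2 : a ∈ T
      · rw [hτS (τ a) (hT' a h2)]
        have h3 : (⟨τ a, hT' a h2⟩ : ↥S) = e.symm ⟨a, h2⟩ := Subtype.ext (hτT a h2)
        rw [h3, Equiv.apply_symm_apply]
      · rw [hfix a h1 h2, hfix a h1 h2]
  let c : Ctx n := (fun a b => if b = τ a then 1 else 0,
    fun a => if a ∈ T then -1 else 1, fun a => if a ∈ S ∪ T then 0 else 1)
  let z : Finset (Fin n) → Fin n → Bool := fun q a => decide (τ a ∉ q)
  refine ⟨c, z, ?_, ?_⟩
  · intro x a b
    have h : build c x a b = if a = b then (if x a then (if a ∈ T then (-1 : ℤ) else 1) else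
      (if a ∈ S ∪ T then 0 else 1)) else (if b = τ a then 1 else 0) := rfl
    rw [h]
    split_ifs <;> simp
  · intro K _ p hp q hq
    let x := mix S (rowPt p) (z q)
    let d : Fin n → K := fun a => ((if x a then c.2.1 a else c.2.2 a : ℤ) : K)
    have h1 : (build c x).map (Int.cast : ℤ → K) =
        Matrix.of fun a b => if a = b then d a else if b = τ a then 1 else 0 := by
      ext a b
      rw [Matrix.map_apply]
      show ((if a = b then (if x a then c.2.1 a else c.2.2 a) else (if b = τ a then 1 else 0) : ℤ) : K)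
        = if a = b then d a else if b = τ a then 1 else 0
      by_cases hab : a = b
      · rw [if_pos hab, if_pos hab]
      · rw [if_neg hab, if_neg hab]
        split_ifs <;> simp
    rw [h1, perm_pair S T hd τ hS' hT' hτ hfix d]
    · have hdS : ∀ a ∈ S, d a = if a ∈ p then 1 else 0 := by
        intro a ha
        have h2 : a ∉ T := fun h => disjoint_left.1 hd ha h
        have h3 : x a = decide (a ∈ p) := by
          show (if a ∈ S then rowPt p a else z q a) = _
          rw [if_pos ha]
          rfl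
        show ((if x a then (if a ∈ T then (-1 : ℤ) else 1) else (if a ∈ S ∪ T then 0 else 1) : ℤ) : K) = _
        rw [h3, if_neg h2, if_pos (mem_union_left _ ha)]
        by_cases h4 : a ∈ p <;> simp [h4]
      have hdT : ∀ a ∈ S, d (τ a) = if a ∈ q then 0 else -1 := by
        intro a ha
        have h2 : τ a ∉ S := fun h => disjoint_left.1 hd h (hS' a ha)
        have h3 : x (τ a) = decide (a ∉ q) := by
          show (if τ a ∈ S then rowPt p (τ a) else z q (τ a)) = _
          rw [if_neg h2]
          show decide (τ (τ a) ∉ q) = _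
          rw [hτ]
        show ((if x (τ a) then (if τ a ∈ T then (-1 : ℤ) else 1) else
          (if τ a ∈ S ∪ T then 0 else 1) : ℤ) : K) = _
        rw [h3, if_pos (hS' a ha), if_pos (mem_union_right _ (hS' a ha))]
        by_cases h4 : a ∈ q <;> simp [h4]
      have h5 : ∀ a ∈ S, d a * d (τ a) + 1 = if a ∈ p → a ∈ q then 1 else 0 := by
        intro a ha
        rw [hdS a ha, hdT a ha]
        by_cases h6 : a ∈ p <;> by_cases h7 : a ∈ q <;> simp [h6, h7]
      rw [prod_congr rfl h5]
      by_cases h8 : p ⊆ q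
      · rw [if_pos h8]
        exact prod_eq_one fun a _ => if_pos fun h => h8 h
      · rw [if_neg h8]
        obtain ⟨a, ha, hb⟩ := not_subset.1 h8
        refine prod_eq_zero (hp ha) (if_neg fun h => hb (h ha))
    · intro a h1 h2
      have h3 : a ∉ S ∪ T := by
        rw [mem_union]
        tauto
      show ((if x a then (if a ∈ T then (-1 : ℤ) else 1) else (if a ∈ S ∪ T then 0 else 1) : ℤ) : K) = 1
      rw [if_neg h2, if_neg h3]
      simp

end Pattern

end Pool.Agent.Helper87.MS
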