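import Pool.Agent.Helper87.MS.Gadget

/-!
# Sums of multilinear formulas: the main inequality
-/

set_option autoImplicit false

namespace Pool.Agent.Helper87.MS

open Finset Pool.Agent.Helper87.D3

/-- `Formula B w s V f`: the function `f` of integer matrices has a formula with `s` leaves and the
gates `+` and `*`. Every leaf is an arbitrary function of the entries off the diagonal, of the
diagonal entries with index in `B`, and of the diagonal entries with index in a set `W` of at most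
`w` indices. `V` is the union of the sets `W` of the leaves; the two arguments of a product gate
must have disjoint sets. -/
inductive Formula {n : ℕ} {K : Type} [Field K] (B : Finset (Fin n)) (w : ℕ) :
    ℕ → Finset (Fin n) → (Matrix (Fin n) (Fin n) ℤ → K) → Prop
  | leaf (W : Finset (Fin n)) (f : Matrix (Fin n) (Fin n) ℤ → K) (hW : W.card ≤ w)
      (hf : ∀ X Y : Matrix (Fin n) (Fin n) ℤ,
        (∀ a b, a ≠ b ∨ a ∈ B ∨ a ∈ W → X a b = Y a b) → f X = f Y) :
      Formula B w 1 W f
  | add (s t : ℕ) (V W : Finset (Fin n)) (f g : Matrix (Fin n) (Fin n) ℤ → K)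
      (hf : Formula B w s V f) (hg : Formula B w t W g) : Formula B w (s + t) (V ∪ W) (f + g)
  | mul (s t : ℕ) (V W : Finset (Fin n)) (f g : Matrix (Fin n) (Fin n) ℤ → K)
      (hf : Formula B w s V f) (hg : Formula B w t W g) (hd : Disjoint V W) :
      Formula B w (s + t) (V ∪ W) (f * g)

section Conv

variable {n : ℕ} {K : Type} [Field K]

/-- a function of matrices as a function of bits; the bits in `B` belong to the context -/
def conv (B : Finset (Fin n)) (f : Matrix (Fin n) (Fin n) ℤ → K) :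
    Ctx n × (Fin n → Bool) → (Fin n → Bool) → K :=
  fun c x => f (build c.1 fun a => if a ∈ B then c.2 a else x a)

theorem Formula.toFm {B : Finset (Fin n)} {w s : ℕ} {V : Finset (Fin n)}
    {f : Matrix (Fin n) (Fin n) ℤ → K} (h : Formula B w s V f) : Fm w s (V \ B) (conv B f) := by
  induction h with
  | leaf W f hW hf =>
    refine Fm.leaf _ _ ((card_le_card sdiff_subset).trans hW) ?_
    intro c x x' hx
    refine hf _ _ fun a b hab => ?_
    show (if a = b then (if (if a ∈ B then c.2 a else x a) then c.1.2.1 a else c.1.2.2 a) else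
      c.1.1 a b) = (if a = b then (if (if a ∈ B then c.2 a else x' a) then c.1.2.1 a else
      c.1.2.2 a) else c.1.1 a b)
    by_cases h1 : a = b
    · by_cases h2 : a ∈ B
      · rw [if_pos h2, if_pos h2]
      · have h3 : a ∈ W := by tauto
        rw [hx a (mem_sdiff.2 ⟨h3, h2⟩)]
    · rw [if_neg h1, if_neg h1]
  | add s t V W f g hf hg ihf ihg =>
    rw [union_sdiff_distrib]
    exact Fm.add _ _ _ _ _ _ ihf ihg
  | mul s t V W f g hf hg hd ihf ihg =>
    rw [union_sdiff_distrib]
    exact Fm.mul _ _ _ _ _ _ ihf ihg (hd.mono sdiff_subset sdiff_subset)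

theorem rankLe_sum {X Y : Type} {ι : Type} (s : Finset ι) (N : ι → ℕ) (f : ι → X × Y → K)
    (hf : ∀ i ∈ s, RankLe (N i) (f i)) : RankLe (∑ i ∈ s, N i) (∑ i ∈ s, f i) := by
  classical
  induction s using Finset.induction_on with
  | empty => simpa using RankLe.zero
  | insert a s ha ih =>
    rw [sum_insert ha, sum_insert ha]
    exact (hf a (mem_insert_self _ _)).add (ih fun i hi => hf i (mem_insert_of_mem hi))

theorem rank_conv {B : Finset (Fin n)} {f : Matrix (Fin n) (Fin n) ℤ → K} {c : Ctx n}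
    {S : Finset (Fin n)} {N : ℕ} (h : ∀ β : Fin n → Bool,
      RankLe N (fun p : (Fin n → Bool) × (Fin n → Bool) => conv B f (c, β) (mix S p.1 p.2))) :
    RankLe (2 ^ B.card * N) (fun p : (Fin n → Bool) × (Fin n → Bool) =>
      f (build c (mix S p.1 p.2))) := by
  classical
  let ext : (↥B → Bool) → Fin n → Bool := fun β a => if h : a ∈ B then β ⟨a, h⟩ else false
  have h1 : (fun p : (Fin n → Bool) × (Fin n → Bool) => f (build c (mix S p.1 p.2))) =
      ∑ β : ↥B → Bool, (fun p : (Fin n → Bool) × (Fin n → Bool) =>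
        (if ∀ a : ↥B, a.1 ∈ S → p.1 a = β a then (1 : K) else 0) *
        (if ∀ a : ↥B, a.1 ∉ S → p.2 a = β a then (1 : K) else 0)) *
        (fun p => conv B f (c, ext β) (mix S p.1 p.2)) := by
    funext p
    rw [Finset.sum_apply, Fintype.sum_eq_single (fun a : ↥B => mix S p.1 p.2 a)]
    · simp only [Pi.mul_apply]
      rw [if_pos, if_pos, one_mul, one_mul]
      · unfold conv
        congr 2
        funext a
        by_cases ha : a ∈ B
        · rw [if_pos ha]
          show mix S p.1 p.2 a = (if h : a ∈ B then mix S p.1 p.2 a else false)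
          rw [dif_pos ha]
        · rw [if_neg ha]
      · intro a ha
        show p.2 a = (if a.1 ∈ S then p.1 a else p.2 a)
        rw [if_neg ha]
      · intro a ha
        show p.1 a = (if a.1 ∈ S then p.1 a else p.2 a)
        rw [if_pos ha]
    · intro β hβ
      simp only [Pi.mul_apply]
      by_cases h2 : ∀ a : ↥B, a.1 ∈ S → p.1 a = β a
      · by_cases h3 : ∀ a : ↥B, a.1 ∉ S → p.2 a = β a
        · exfalso
          apply hβ
          funext a
          show β a = (if a.1 ∈ S then p.1 a else p.2 a)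
          by_cases h4 : a.1 ∈ S
          · rw [if_pos h4, h2 a h4]
          · rw [if_neg h4, h3 a h4]
        · rw [if_neg h3, mul_zero, zero_mul]
      · rw [if_neg h2, zero_mul, zero_mul]
  rw [h1]
  have h2 : 2 ^ B.card * N = ∑ _β : ↥B → Bool, 1 * N := by
    rw [sum_const, card_univ, Fintype.card_fun, Fintype.card_bool, Fintype.card_coe, one_mul,
      smul_eq_mul]
  rw [h2]
  refine rankLe_sum _ _ _ fun β _ => RankLe.mul ?_ (h (ext β))
  exact ⟨fun _ y => if ∀ a : ↥B, a.1 ∈ S → y a = β a then 1 else 0,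
    fun _ z => if ∀ a : ↥B, a.1 ∉ S → z a = β a then 1 else 0, by
      funext p
      rw [Fintype.sum_subsingleton _ (0 : Fin 1)]⟩

end Conv

section Bound

variable {n : ℕ} {K : Type} [Field K]

theorem sum_inter (B : Finset (Fin n)) (R : Finset (Fin n) → ℕ) :
    ∑ S : Finset (Fin n), (R (S ∩ (univ \ B)) : ℝ) =
      2 ^ B.card * ∑ A ∈ (univ \ B).powerset, (R A : ℝ) := by
  have h1 := sum_powerset_union (disjoint_sdiff : Disjoint B (univ \ B))
    (fun S => (R (S ∩ (univ \ B)) : ℝ))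
  rw [union_sdiff_of_subset (subset_univ B), powerset_univ] at h1
  rw [h1]
  have h2 : ∀ A ∈ B.powerset, ∀ D ∈ (univ \ B).powerset,
      (R ((A ∪ D) ∩ (univ \ B)) : ℝ) = R D := by
    intro A hA D hD
    rw [mem_powerset] at hA hD
    congr 2
    rw [union_inter_distrib_right, inter_eq_left.2 hD,
      disjoint_iff_inter_eq_empty.1 ((disjoint_sdiff : Disjoint B (univ \ B)).mono_left hA),
      empty_union]
  rw [sum_congr rfl fun A hA => sum_congr rfl fun D hD => h2 A hA D hD, sum_const, card_powerset,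
    nsmul_eq_mul]
  push_cast
  ring

/-- for one formula -/
theorem one_formula {w S q b : ℕ} (hw : 1 ≤ w) (hS : 1 ≤ S)
    (hσq : Real.log (2 * S * w) ≤ (q : ℝ) ^ 2 / 2 * Real.log 2)
    (hn : 9 * 12 ^ q * w + b ≤ n) {B : Finset (Fin n)} (hB : B.card ≤ b) {s : ℕ} (hs : s ≤ S)
    {V : Finset (Fin n)} {f : Matrix (Fin n) (Fin n) ℤ → K} (hf : Formula B w s V f) :
    ∃ R : Finset (Fin n) → ℕ,
      (∀ c S, RankLe (R S) (fun p : (Fin n → Bool) × (Fin n → Bool) =>
        f (build c (mix S p.1 p.2)))) ∧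
      ∑ S, (R S : ℝ) ≤ 2 ^ n * (Real.sqrt 2) ^ n *
        Real.exp (b - Real.log (2 * S * w) / (27 * 12 ^ q * w) * n) := by
  have hcard : (univ \ B : Finset (Fin n)).card = n - B.card := by
    rw [card_sdiff_of_subset (subset_univ B), card_univ, Fintype.card_fin]
  have hBn : B.card ≤ n := by omega
  obtain ⟨R, h1, h2⟩ := pot_formula hw hS hσq (Z := univ \ B) (by rw [hcard]; omega) hs hf.toFm
    (sdiff_subset_sdiff (subset_univ V) (Subset.refl B))
  refine ⟨fun S => 2 ^ B.card * R (S ∩ (univ \ B)), fun c S => ?_, ?_⟩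
  · exact rank_conv fun β => h1 (c, β) S
  · set κ : ℝ := Real.log (2 * S * w) / (27 * 12 ^ q * w) with hκ
    have hκ12 : 12 * κ ≤ Real.log 2 := kappa_le hw hσq
    push_cast
    rw [← mul_sum, sum_inter, ← mul_assoc, ← pow_add]
    have h3 : (2 : ℝ) ^ (B.card + B.card) * ∑ A ∈ (univ \ B).powerset, (R A : ℝ) ≤
        2 ^ (B.card + B.card) * (2 ^ (univ \ B : Finset (Fin n)).card *
          (Real.sqrt 2) ^ (univ \ B : Finset (Fin n)).card *
          Real.exp (-(κ * (univ \ B : Finset (Fin n)).card))) :=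
      mul_le_mul_of_nonneg_left h2 (by positivity)
    refine h3.trans ?_
    rw [hcard]
    have e1 : (n : ℝ) = (n - B.card : ℕ) + B.card := by
      push_cast [Nat.cast_sub hBn]
      ring
    have e2 : (2 : ℝ) ^ n = 2 ^ (n - B.card) * 2 ^ B.card := by
      rw [← pow_add]
      congr 1
      omega
    have e3 : (Real.sqrt 2) ^ n = (Real.sqrt 2) ^ (n - B.card) * (Real.sqrt 2) ^ B.card := by
      rw [← pow_add]
      congr 1
      omega
    have e4 : (2 : ℝ) ^ (B.card + B.card) = 2 ^ B.card * ((Real.sqrt 2) ^ B.card *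
        (Real.sqrt 2) ^ B.card) := by
      rw [pow_add, ← mul_pow (Real.sqrt 2), Real.mul_self_sqrt (by norm_num)]
    rw [e2, e3, e4]
    have h5 : (Real.sqrt 2) ^ B.card * Real.exp (-(κ * (n - B.card : ℕ))) ≤
        Real.exp (b - κ * n) := by
      have h6 : (Real.sqrt 2) ^ B.card = Real.exp (B.card * (Real.log 2 / 2)) := by
        have := sqrt_two_pow_inv B.card
        rw [Real.exp_neg] at this
        exact inv_injective this
      rw [h6, ← Real.exp_add]
      refine Real.exp_le_exp.2 ?_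
      have h7 : (B.card : ℝ) ≤ b := by exact_mod_cast hB
      have h8 : (B.card : ℝ) * (Real.log 2 / 2 + κ) ≤ B.card * 1 := by
        refine mul_le_mul_of_nonneg_left ?_ (Nat.cast_nonneg _)
        have := Real.log_two_lt_d9
        linarith
      rw [e1]
      nlinarith
    calc 2 ^ B.card * ((Real.sqrt 2) ^ B.card * (Real.sqrt 2) ^ B.card) *
          (2 ^ (n - B.card) * (Real.sqrt 2) ^ (n - B.card) *
            Real.exp (-(κ * (n - B.card : ℕ))))
        = (2 ^ (n - B.card) * 2 ^ B.card * ((Real.sqrt 2) ^ (n - B.card) *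
            (Real.sqrt 2) ^ B.card)) * ((Real.sqrt 2) ^ B.card *
            Real.exp (-(κ * (n - B.card : ℕ)))) := by ring
      _ ≤ _ := mul_le_mul_of_nonneg_left h5 (by positivity)

open Classical in
/-- the main inequality -/
theorem main_ineq {Ω : Type} [Fintype Ω] (wt : Ω → ℝ) (hwt : ∀ ω, 0 ≤ wt ω)
    (hsum : ∑ ω, wt ω = 1) {w S q b T : ℕ} (hw : 1 ≤ w) (hS : 1 ≤ S)
    (hσq : Real.log (2 * S * w) ≤ (q : ℝ) ^ 2 / 2 * Real.log 2)
    (hn : 9 * 12 ^ q * w + b ≤ n) {α : ℝ} (B : Ω → Fin T → Finset (Fin n))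
    (hB : ∀ ω i, (B ω i).card ≤ b) (F : Ω → Fin T → Matrix (Fin n) (Fin n) ℤ → K)
    (hF : ∀ ω i, ∃ s ≤ S, ∃ V, Formula (B ω i) w s V (F ω i))
    (h0 : ∀ ω (X : Matrix (Fin n) (Fin n) ℤ), (∀ a b, X a b = -1 ∨ X a b = 0 ∨ X a b = 1) →
      (X.map (Int.cast : ℤ → K)).permanent = 0 → ∑ i, F ω i X = 0)
    (h1 : ∀ (X : Matrix (Fin n) (Fin n) ℤ), (∀ a b, X a b = -1 ∨ X a b = 0 ∨ X a b = 1) →
      (X.map (Int.cast : ℤ → K)).permanent ≠ 0 →
      α ≤ ∑ ω, wt ω * (if ∑ i, F ω i X ≠ 0 then 1 else 0)) :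
    α * ((n.choose (n / 2) : ℕ) * 2 ^ (n / 2)) ≤ T * (2 ^ n * (Real.sqrt 2) ^ n *
      Real.exp (b - Real.log (2 * S * w) / (27 * 12 ^ q * w) * n)) := by
  set E : ℝ := 2 ^ n * (Real.sqrt 2) ^ n *
      Real.exp (b - Real.log (2 * S * w) / (27 * 12 ^ q * w) * n) with hE
  have hR : ∀ ω i, ∃ R : Finset (Fin n) → ℕ,
      (∀ c S, RankLe (R S) (fun p : (Fin n → Bool) × (Fin n → Bool) =>
        F ω i (build c (mix S p.1 p.2)))) ∧ ∑ S, (R S : ℝ) ≤ E := by
    intro ω i
    obtain ⟨s, hs, V, hf⟩ := hF ω i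
    exact one_formula hw hS hσq hn (hB ω i) hs hf
  choose R hR1 hR2 using hR
  have hctx : ∀ S : Finset (Fin n), ∃ (c : Ctx n) (z : Finset (Fin n) → Fin n → Bool),
      2 * S.card ≤ n → (∀ x a b, build c x a b = -1 ∨ build c x a b = 0 ∨ build c x a b = 1) ∧
      ∀ p ⊆ S, ∀ q ⊆ S,
        ((build c (mix S (rowPt p) (z q))).map (Int.cast : ℤ → K)).permanent =
          if p ⊆ q then 1 else 0 := by
    intro S
    by_cases hS : 2 * S.card ≤ n
    · obtain ⟨c, z, h2, h3⟩ := exists_ctx S hS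
      exact ⟨c, z, fun _ => ⟨h2, h3 K⟩⟩
    · exact ⟨(fun _ _ => 0, fun _ => 0, fun _ => 0), fun _ _ => false, fun h => absurd h hS⟩
  choose c z hcz using hctx
  let X : Finset (Fin n) → Finset (Fin n) → Matrix (Fin n) (Fin n) ℤ :=
    fun S p => build (c S) (mix S (rowPt p) (z S p))
  -- the number of good points
  have hgood : ∀ ω S, 2 * S.card ≤ n →
      ((S.powerset.filter fun p => ∑ i, F ω i (X S p) ≠ 0).card : ℝ) ≤ ∑ i, (R ω i S : ℝ) := by
    intro ω S hS
    obtain ⟨h2, h3⟩ := hcz S hS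
    have h4 : RankLe (∑ i, R ω i S) (∑ i, fun p : (Fin n → Bool) × (Fin n → Bool) =>
        F ω i (build (c S) (mix S p.1 p.2))) :=
      rankLe_sum _ _ _ fun i _ => hR1 ω i (c S) S
    obtain ⟨a, b, hab⟩ := h4
    have h5 : (S.powerset.filter fun p => ∑ i, F ω i (X S p) ≠ 0).card ≤ ∑ i, R ω i S := by
      refine card_le_of_tri _ (fun p q => ∑ i, F ω i (build (c S) (mix S (rowPt p) (z S q))))
        ?_ ?_ (fun i p => a i (rowPt p)) (fun i q => b i (z S q)) ?_
      · intro p hp q hq hpq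
        rw [mem_filter, mem_powerset] at hp hq
        refine h0 ω _ (h2 _) ?_
        rw [h3 p hp.1 q hq.1, if_neg hpq]
      · intro p hp
        exact (mem_filter.1 hp).2
      · intro p q
        have := congrFun hab (rowPt p, z S q)
        rw [Finset.sum_apply] at this
        exact this
    exact_mod_cast h5
  -- averaging
  set P : Finset (Finset (Fin n)) := powersetCard (n / 2) univ with hP
  have hPc : ∀ S ∈ P, 2 * S.card ≤ n := by
    intro S hS
    rw [hP, mem_powersetCard_univ] at hS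
    rw [hS]
    omega
  have hcount : ∑ S ∈ P, ∑ _p ∈ S.powerset, α = α * ((n.choose (n / 2) : ℕ) * 2 ^ (n / 2)) := by
    have h2 : ∀ S ∈ P, ∑ _p ∈ S.powerset, α = 2 ^ (n / 2) * α := by
      intro S hS
      rw [hP, mem_powersetCard_univ] at hS
      rw [sum_const, card_powerset, hS, nsmul_eq_mul]
      push_cast
      ring
    rw [sum_congr rfl h2, sum_const, hP, card_powersetCard, card_univ, Fintype.card_fin,
      nsmul_eq_mul]
    ring
  rw [← hcount]
  have h6 : ∀ S ∈ P, ∀ p ∈ S.powerset, α ≤ ∑ ω, wt ω *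
      (if ∑ i, F ω i (X S p) ≠ 0 then 1 else 0) := by
    intro S hS p hp
    rw [mem_powerset] at hp
    obtain ⟨h2, h3⟩ := hcz S (hPc S hS)
    refine h1 _ (h2 _) ?_
    rw [h3 p hp p hp, if_pos (Subset.refl p)]
    exact one_ne_zero
  calc ∑ S ∈ P, ∑ _p ∈ S.powerset, α
      ≤ ∑ S ∈ P, ∑ p ∈ S.powerset, ∑ ω, wt ω *
        (if ∑ i, F ω i (X S p) ≠ 0 then 1 else 0) :=
        sum_le_sum fun S hS => sum_le_sum fun p hp => h6 S hS p hp
    _ = ∑ ω, wt ω * ∑ S ∈ P,
        ((S.powerset.filter fun p => ∑ i, F ω i (X S p) ≠ 0).card : ℝ) := by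
        have h7 : ∀ S ∈ P, ∑ p ∈ S.powerset, ∑ ω, wt ω *
            (if ∑ i, F ω i (X S p) ≠ 0 then (1 : ℝ) else 0) =
            ∑ ω, wt ω * ((S.powerset.filter fun p => ∑ i, F ω i (X S p) ≠ 0).card : ℝ) := by
          intro S _
          rw [sum_comm]
          refine sum_congr rfl fun ω _ => ?_
          rw [← mul_sum, card_filter]
          push_cast
          rfl
        rw [sum_congr rfl h7, sum_comm]
        refine sum_congr rfl fun ω _ => ?_
        rw [mul_sum]
    _ ≤ ∑ ω, wt ω * (T * E) := by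
        refine sum_le_sum fun ω _ => mul_le_mul_of_nonneg_left ?_ (hwt ω)
        calc ∑ S ∈ P, ((S.powerset.filter fun p => ∑ i, F ω i (X S p) ≠ 0).card : ℝ)
            ≤ ∑ S ∈ P, ∑ i, (R ω i S : ℝ) :=
              sum_le_sum fun S hS => hgood ω S (hPc S hS)
          _ ≤ ∑ S, ∑ i, (R ω i S : ℝ) :=
              sum_le_sum_of_subset_of_nonneg (subset_univ P) fun S _ _ =>
                sum_nonneg fun i _ => Nat.cast_nonneg _
          _ = ∑ i, ∑ S, (R ω i S : ℝ) := sum_comm
          _ ≤ ∑ _i : Fin T, E := sum_le_sum fun i _ => hR2 ω i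
          _ = T * E := by rw [sum_const, card_univ, Fintype.card_fin, nsmul_eq_mul]
    _ = T * E := by rw [← sum_mul, hsum, one_mul]

theorem final_ineq {w S q b T : ℕ} {α : ℝ} (hα : 0 < α) (hT : 1 ≤ T)
    (h : α * ((n.choose (n / 2) : ℕ) * 2 ^ (n / 2)) ≤ T * (2 ^ n * (Real.sqrt 2) ^ n *
      Real.exp (b - Real.log (2 * S * w) / (27 * 12 ^ q * w) * n))) :
    Real.log (2 * S * w) / (27 * 12 ^ q * w) * n ≤ Real.log (2 * T / α) + b +
      Real.log (2 * (n + 1)) := by
  set x : ℝ := Real.log (2 * S * w) / (27 * 12 ^ q * w) * n with hx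
  have hT' : (1 : ℝ) ≤ T := by exact_mod_cast hT
  have h1 : (2 : ℝ) ^ n ≤ (n + 1) * (n.choose (n / 2) : ℕ) := by
    have h2 : 2 ^ n ≤ (n + 1) * n.choose (n / 2) := by
      rw [← Nat.sum_range_choose n]
      refine (sum_le_sum fun k _ => Nat.choose_le_middle k n).trans ?_
      rw [sum_const, card_range, smul_eq_mul]
    exact_mod_cast h2
  have h2 : (Real.sqrt 2) ^ n ≤ 2 * 2 ^ (n / 2) := by
    have h3 : (Real.sqrt 2) ^ n ≤ (Real.sqrt 2) ^ (2 * (n / 2 + 1)) :=
      pow_le_pow_right₀ (Real.one_le_sqrt.2 (by norm_num)) (by omega)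
    rw [pow_mul, Real.sq_sqrt (by norm_num), pow_succ] at h3
    linarith
  have h0 : (0 : ℝ) < 2 ^ n * (Real.sqrt 2) ^ n := by positivity
  have h3 : α * (2 ^ n * (Real.sqrt 2) ^ n) ≤
      (T * (2 ^ n * (Real.sqrt 2) ^ n * Real.exp (b - x))) * (2 * (n + 1)) := by
    calc α * (2 ^ n * (Real.sqrt 2) ^ n)
        ≤ α * (((n + 1) * (n.choose (n / 2) : ℕ)) * (2 * 2 ^ (n / 2))) := by
          refine mul_le_mul_of_nonneg_left ?_ hα.le
          exact mul_le_mul h1 h2 (by positivity) (by positivity)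
      _ = α * ((n.choose (n / 2) : ℕ) * 2 ^ (n / 2)) * (2 * (n + 1)) := by ring
      _ ≤ _ := mul_le_mul_of_nonneg_right h (by positivity)
  have h4 : α ≤ T * Real.exp (b - x) * (2 * (n + 1)) := by
    have h5 : (2 ^ n * (Real.sqrt 2) ^ n) * α ≤ (2 ^ n * (Real.sqrt 2) ^ n) *
        (T * Real.exp (b - x) * (2 * (n + 1))) := by
      calc (2 ^ n * (Real.sqrt 2) ^ n) * α = α * (2 ^ n * (Real.sqrt 2) ^ n) := by ring
        _ ≤ _ := h3
        _ = _ := by ring
    exact le_of_mul_le_mul_left h5 h0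
  have h5 : Real.log α ≤ Real.log T + (b - x) + Real.log (2 * (n + 1)) := by
    have h6 := Real.log_le_log hα h4
    rwa [Real.log_mul (by positivity) (by positivity), Real.log_mul (by positivity)
      (Real.exp_ne_zero _), Real.log_exp] at h6
  have h7 : Real.log (2 * T / α) = Real.log 2 + Real.log T - Real.log α := by
    rw [Real.log_div (by positivity) hα.ne', Real.log_mul (by norm_num) (by positivity)]
  have h8 : 0 ≤ Real.log 2 := Real.log_nonneg (by norm_num)
  rw [h7]
  linarith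

end Bound

end Pool.Agent.Helper87.MS
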