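import Pool.Agent.Helper87.MS.Claims

/-!
# Sums of multilinear formulas: the choice of the parameters
-/

set_option autoImplicit false

namespace Pool.Agent.Helper87.MS

open Finset

theorem succ_le_three_pow (j : ℕ) : j + 1 ≤ 3 ^ j := by
  induction j with
  | zero => simp
  | succ j ih => rw [pow_succ]; omega

theorem self_le_four_pow (q : ℕ) : q ≤ 4 ^ q := (Nat.lt_pow_self (by norm_num)).le

theorem two_sq_le (q : ℕ) : 2 * q ^ 2 ≤ 9 * 12 ^ q := by
  induction q with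
  | zero => simp
  | succ q ih =>
    have h1 : q + 1 ≤ 12 ^ q := by
      clear ih
      induction q with
      | zero => simp
      | succ q ih => rw [pow_succ]; omega
    rw [pow_succ 12 q]
    nlinarith

theorem sqrt_two_pow_inv (k : ℕ) : ((Real.sqrt 2) ^ k)⁻¹ = Real.exp (-(k * (Real.log 2 / 2))) := by
  have h1 : Real.sqrt 2 = Real.exp (Real.log 2 / 2) := by
    rw [Real.sqrt_eq_rpow, Real.rpow_def_of_pos (by norm_num)]
    congr 1
    ring
  rw [h1, ← Real.exp_nat_mul, ← Real.exp_neg]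

theorem kappa_le {w S q : ℕ} (hw : 1 ≤ w)
    (hσq : Real.log (2 * S * w) ≤ (q : ℝ) ^ 2 / 2 * Real.log 2) :
    12 * (Real.log (2 * S * w) / (27 * 12 ^ q * w)) ≤ Real.log 2 := by
  have hl2 : 0 < Real.log 2 := Real.log_pos (by norm_num)
  have hw' : (1 : ℝ) ≤ w := by exact_mod_cast hw
  have h0 : (0 : ℝ) < 27 * 12 ^ q * w := by positivity
  rw [← mul_div_assoc, div_le_iff₀ h0]
  have h1 : (2 : ℝ) * (q : ℝ) ^ 2 ≤ 9 * 12 ^ q := by exact_mod_cast two_sq_le q
  have h2 : (9 * 12 ^ q : ℝ) ≤ 9 * 12 ^ q * w := le_mul_of_one_le_right (by positivity) hw'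
  calc 12 * Real.log (2 * S * w) ≤ 12 * ((q : ℝ) ^ 2 / 2 * Real.log 2) := by linarith
    _ = 3 * (2 * (q : ℝ) ^ 2) * Real.log 2 := by ring
    _ ≤ 3 * (9 * 12 ^ q * w) * Real.log 2 := by
        refine mul_le_mul_of_nonneg_right ?_ hl2.le
        linarith
    _ = Real.log 2 * (27 * 12 ^ q * w) := by ring

variable {n : ℕ} {C K : Type} [Field K]

theorem pot_formula {w S q : ℕ} (hw : 1 ≤ w) (hS : 1 ≤ S)
    (hσq : Real.log (2 * S * w) ≤ (q : ℝ) ^ 2 / 2 * Real.log 2)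
    {Z : Finset (Fin n)} (hZ : 9 * 12 ^ q * w ≤ Z.card) {s : ℕ} (hs : s ≤ S)
    {V : Finset (Fin n)} {f : C → (Fin n → Bool) → K} (hf : Fm w s V f) (hV : V ⊆ Z) :
    Pot Z f (Real.exp (-(Real.log (2 * S * w) / (27 * 12 ^ q * w) * Z.card))) := by
  set σ : ℝ := 2 * S * w with hσd
  have hl2 : 0 < Real.log 2 := Real.log_pos (by norm_num)
  have hS' : (1 : ℝ) ≤ S := by exact_mod_cast hS
  have hw' : (1 : ℝ) ≤ w := by exact_mod_cast hw
  have hSw : (1 : ℝ) ≤ S * w := one_le_mul_of_one_le_of_one_le hS' hw'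
  have hσ2 : (2 : ℝ) ≤ σ := by rw [hσd]; nlinarith
  have hσ0 : 0 < σ := by linarith
  set N₀ : ℕ := 9 * 12 ^ q * w with hN₀
  have hN1 : 9 * 12 ^ q ≤ N₀ := Nat.le_mul_of_pos_right _ (by omega)
  have h12 : 1 ≤ 12 ^ q := Nat.one_le_pow _ _ (by norm_num)
  have hNw : w ≤ N₀ := Nat.le_mul_of_pos_left _ (by omega)
  have hNpos : 1 ≤ N₀ := by omega
  have hNr : (0 : ℝ) < N₀ := by exact_mod_cast hNpos
  set κ : ℝ := Real.log σ / (27 * 12 ^ q * w) with hκd
  have hκN : κ * (3 * N₀) = Real.log σ := by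
    rw [hκd, hN₀]
    push_cast
    field_simp
    ring
  have hκ0 : 0 ≤ κ := by
    rw [hκd]
    exact div_nonneg (Real.log_nonneg (by linarith)) (by positivity)
  -- `12 κ ≤ log 2`
  have hκ12 : 12 * κ ≤ Real.log 2 := by
    have h1 : (2 : ℝ) * (q : ℝ) ^ 2 ≤ N₀ := by exact_mod_cast (two_sq_le q).trans hN1
    have h2 : κ * (3 * N₀) ≤ (q : ℝ) ^ 2 / 2 * Real.log 2 := by rw [hκN]; exact hσq
    have h3 : κ * (3 * N₀) ≤ N₀ / 4 * Real.log 2 :=
      h2.trans (mul_le_mul_of_nonneg_right (by linarith) hl2.le)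
    have h4 : N₀ * (12 * κ) ≤ N₀ * Real.log 2 := by nlinarith
    exact le_of_mul_le_mul_left h4 hNr
  have hfinal := claimB (C := C) (K := K) (n := n) (w := w) (N₀ := N₀) (S := S) (σ := σ) (κ := κ)
    (by rw [hσd]; nlinarith) hσ0 hNpos hNw ?_ ?_ ?_ Z.card Z rfl hZ s hs V f hf hV
  · refine hfinal.mono ?_
    rw [← mul_assoc]
    refine mul_le_of_le_one_left (Real.exp_pos _).le ?_
    rw [← div_eq_mul_inv, div_le_one hσ0]
    have : (s : ℝ) ≤ S := by exact_mod_cast hs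
    rw [hσd]
    nlinarith
  · intro k _
    rw [sqrt_two_pow_inv]
    refine Real.exp_le_exp.2 (neg_le_neg ?_)
    rw [mul_comm κ]
    refine mul_le_mul_of_nonneg_left ?_ (Nat.cast_nonneg k)
    linarith
  · intro Z hZ1 hZ2 s V f hf hV
    have hA := claimA (C := C) (K := K) (n := n) (w := w) (n₀ := 9 * 4 ^ q * w) (q := q)
      (ρ := (1 / 2) ^ q) (by positivity) ?_ ?_ ?_ ?_ q le_rfl Z ?_ s V f hf hV
    · refine hA.mono (mul_le_mul_of_nonneg_left ?_ (Nat.cast_nonneg s))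
      have h1 : ((1 / 2 : ℝ) ^ q) ^ q = Real.exp (-((q : ℝ) ^ 2 * Real.log 2)) := by
        rw [← pow_mul, one_div, inv_pow, Real.exp_neg, ← sq]
        congr 1
        have : Real.exp ((q : ℝ) ^ 2 * Real.log 2) = Real.exp (Real.log 2) ^ (q ^ 2) := by
          rw [← Real.exp_nat_mul]
          push_cast
          ring
        rw [this, Real.exp_log (by norm_num)]
      rw [h1]
      have h2 : σ⁻¹ = Real.exp (-(Real.log σ)) := by rw [Real.exp_neg, Real.exp_log hσ0]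
      rw [h2, ← Real.exp_add]
      refine Real.exp_le_exp.2 ?_
      have h3 : κ * Z.card ≤ Real.log σ := by
        rw [← hκN]
        refine mul_le_mul_of_nonneg_left ?_ hκ0
        exact_mod_cast hZ2
      linarith
    · have : 1 ≤ 4 ^ q := Nat.one_le_pow _ _ (by norm_num)
      have h1 : 1 * 1 ≤ (9 * 4 ^ q) * w := Nat.mul_le_mul (by omega) hw
      omega
    · have : 1 ≤ 4 ^ q := Nat.one_le_pow _ _ (by norm_num)
      exact Nat.le_mul_of_pos_left _ (by omega)
    · intro m hm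
      have h1 : (3 * 2 ^ q : ℝ) ≤ Real.sqrt m := by
        refine Real.le_sqrt_of_sq_le ?_
        have h2 : 9 * 4 ^ q ≤ m := (Nat.le_mul_of_pos_right _ (by omega)).trans hm
        have h3 : (9 * 4 ^ q : ℝ) ≤ m := by exact_mod_cast h2
        refine le_trans (le_of_eq ?_) h3
        rw [mul_pow, ← pow_mul, mul_comm q 2, pow_mul]
        norm_num
      have h0 : (0 : ℝ) < 3 * 2 ^ q := by positivity
      rw [div_le_iff₀ (h0.trans_le h1), one_div, inv_pow]
      have h4 : (3 : ℝ) = (2 ^ q)⁻¹ * (3 * 2 ^ q) := by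
        field_simp
      rw [show (3 : ℝ) = (2 ^ q)⁻¹ * (3 * 2 ^ q) from h4]
      exact mul_le_mul_of_nonneg_left h1 (by positivity)
    · intro j k hj hk
      have h1 : 2 * (q * (j + 1)) ≤ k := by
        refine le_trans ?_ hk
        calc 2 * (q * (j + 1)) ≤ 9 * (4 ^ q * 3 ^ j) := by
              have := Nat.mul_le_mul (self_le_four_pow q) (succ_le_three_pow j)
              omega
          _ ≤ 9 * (4 ^ q * 3 ^ j) * w := Nat.le_mul_of_pos_right _ (by omega)
          _ = 3 ^ j * (9 * 4 ^ q * w) := by ring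
      have h2 : ((1 / 2 : ℝ) ^ q) ^ (j + 1) = ((Real.sqrt 2) ^ (2 * (q * (j + 1))))⁻¹ := by
        rw [pow_mul (Real.sqrt 2), Real.sq_sqrt (by norm_num), ← pow_mul, one_div, inv_pow]
      rw [h2]
      exact inv_anti₀ (by positivity) (pow_le_pow_right₀ (Real.one_le_sqrt.2 (by norm_num)) h1)
    · refine le_trans (le_of_eq ?_) hZ1
      rw [hN₀, show (12 : ℕ) = 3 * 4 by norm_num, mul_pow]
      ring
  · intro m k hm hmk
    rw [sqrt_two_pow_inv]
    have h2 : σ⁻¹ = Real.exp (-(Real.log σ)) := by rw [Real.exp_neg, Real.exp_log hσ0]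
    rw [h2, ← Real.exp_add]
    refine Real.exp_le_exp.2 ?_
    have h3 : (N₀ : ℝ) ≤ k := by
      have : N₀ ≤ k := by omega
      exact_mod_cast this
    have h4 : (m : ℝ) ≤ 3 * k := by exact_mod_cast hmk
    have h5 : Real.log σ ≤ κ * (3 * k) := by
      rw [← hκN]
      exact mul_le_mul_of_nonneg_left (by linarith) hκ0
    have h6 : κ * m ≤ κ * (3 * k) := mul_le_mul_of_nonneg_left h4 hκ0
    have h7 : (k : ℝ) * (12 * κ) ≤ k * Real.log 2 :=
      mul_le_mul_of_nonneg_left hκ12 (Nat.cast_nonneg k)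
    nlinarith

end Pool.Agent.Helper87.MS
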