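import Pool.Agent.Helper87.D3.Rank

/-!
# Sums of multilinear formulas: the potential

A label is a set `S` of coordinates (the coordinates of the rows); the other coordinates belong to
the columns.
-/

set_option autoImplicit false

namespace Pool.Agent.Helper87.MS

open Finset Pool.Agent.Helper87.D3

/-- the point with the coordinates of `y` on `S` and of `z` off `S` -/
def mix {n : ℕ} (S : Finset (Fin n)) (y z : Fin n → Bool) : Fin n → Bool :=
  fun a => if a ∈ S then y a else z a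

section Sums

theorem sum_powerset_union {ι : Type} [DecidableEq ι] {X Y : Finset ι} (h : Disjoint X Y)
    (g : Finset ι → ℝ) :
    ∑ S ∈ (X ∪ Y).powerset, g S = ∑ A ∈ X.powerset, ∑ B ∈ Y.powerset, g (A ∪ B) := by
  rw [← sum_product']
  symm
  refine sum_nbij' (fun p => p.1 ∪ p.2) (fun S => (S ∩ X, S ∩ Y)) ?_ ?_ ?_ ?_ ?_
  · rintro ⟨A, B⟩ hp
    rw [mem_product, mem_powerset, mem_powerset] at hp
    rw [mem_powerset]
    exact union_subset_union hp.1 hp.2
  · intro S _
    rw [mem_product, mem_powerset, mem_powerset]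
    exact ⟨inter_subset_right, inter_subset_right⟩
  · rintro ⟨A, B⟩ hp
    rw [mem_product, mem_powerset, mem_powerset] at hp
    have h1 : (A ∪ B) ∩ X = A := by
      rw [union_inter_distrib_right, inter_eq_left.2 hp.1,
        disjoint_iff_inter_eq_empty.1 (h.symm.mono_left hp.2), union_empty]
    have h2 : (A ∪ B) ∩ Y = B := by
      rw [union_inter_distrib_right, inter_eq_left.2 hp.2,
        disjoint_iff_inter_eq_empty.1 (h.mono_left hp.1), empty_union]
    simp only [h1, h2]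
  · intro S hS
    rw [mem_powerset] at hS
    show (S ∩ X) ∪ (S ∩ Y) = S
    rw [← inter_union_distrib_left, inter_eq_left.2 hS]
  · intro p _
    rfl

/-- the sum of the smaller powers of two -/
theorem sum_min (m : ℕ) :
    (∑ k ∈ range (m + 1), (2 : ℝ) ^ (min k (m - k))) + 2 ≤ 3 * (Real.sqrt 2) ^ m := by
  induction m using Nat.strong_induction_on with
  | _ m ih =>
    rcases m with _ | _ | m
    · norm_num
    · have h1 : (1.41 : ℝ) ≤ Real.sqrt 2 := by
        rw [show (1.41 : ℝ) = Real.sqrt (1.41 ^ 2) by rw [Real.sqrt_sq (by norm_num)]]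
        exact Real.sqrt_le_sqrt (by norm_num)
      rw [sum_range_succ, sum_range_one]
      norm_num
      linarith
    · have h1 : ∑ k ∈ range (m + 2 + 1), (2 : ℝ) ^ (min k (m + 2 - k)) =
          2 * (∑ k ∈ range (m + 1), (2 : ℝ) ^ (min k (m - k))) + 2 := by
        rw [sum_range_succ, sum_range_succ', mul_sum]
        have h2 : ∀ k ∈ range (m + 1), (2 : ℝ) ^ (min (k + 1) (m + 2 - (k + 1))) =
            2 * (2 : ℝ) ^ (min k (m - k)) := by
          intro k hk
          rw [mem_range] at hk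
          rw [← pow_succ']
          congr 1
          omega
        rw [sum_congr rfl h2]
        norm_num
        ring
      have h3 := ih m (by omega)
      have h4 : (Real.sqrt 2) ^ (m + 2) = 2 * (Real.sqrt 2) ^ m := by
        rw [pow_add, Real.sq_sqrt (by norm_num)]
        ring
      rw [show m + 1 + 1 = m + 2 from rfl, h1, h4]
      linarith

theorem centralBinom_sq (t : ℕ) : (2 * t + 1) * (Nat.centralBinom t) ^ 2 ≤ 16 ^ t := by
  induction t with
  | zero => simp
  | succ t ih =>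
    have h1 := Nat.succ_mul_centralBinom_succ t
    have h2 : (t + 1) ^ 2 * ((2 * (t + 1) + 1) * (Nat.centralBinom (t + 1)) ^ 2) ≤
        (t + 1) ^ 2 * 16 ^ (t + 1) := by
      calc (t + 1) ^ 2 * ((2 * (t + 1) + 1) * (Nat.centralBinom (t + 1)) ^ 2)
          = (2 * t + 3) * ((t + 1) * Nat.centralBinom (t + 1)) ^ 2 := by ring
        _ = (2 * t + 3) * (2 * t + 1) * 4 * ((2 * t + 1) * (Nat.centralBinom t) ^ 2) := by
            rw [h1]; ring
        _ ≤ (2 * t + 3) * (2 * t + 1) * 4 * 16 ^ t := Nat.mul_le_mul_left _ ih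
        _ ≤ 4 * (t + 1) ^ 2 * 4 * 16 ^ t := by
            refine Nat.mul_le_mul_right _ (Nat.mul_le_mul_right _ ?_)
            nlinarith
        _ = (t + 1) ^ 2 * 16 ^ (t + 1) := by ring
    exact Nat.le_of_mul_le_mul_left h2 (by positivity)

theorem choose_sq (m k : ℕ) : m * (m.choose k) ^ 2 ≤ 4 ^ m := by
  refine (Nat.mul_le_mul_left m (Nat.pow_le_pow_left (Nat.choose_le_middle k m) 2)).trans ?_
  rcases Nat.even_or_odd' m with ⟨t, rfl | rfl⟩
  · rw [Nat.mul_div_cancel_left t (by norm_num)]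
    have h1 := centralBinom_sq t
    rw [Nat.centralBinom_eq_two_mul_choose] at h1
    calc 2 * t * ((2 * t).choose t) ^ 2 ≤ (2 * t + 1) * ((2 * t).choose t) ^ 2 :=
          Nat.mul_le_mul_right _ (by omega)
      _ ≤ 16 ^ t := h1
      _ = 4 ^ (2 * t) := by rw [pow_mul]; norm_num
  · have h0 : (2 * t + 1) / 2 = t := by omega
    rw [h0]
    have h1 := centralBinom_sq (t + 1)
    have h2 : 2 * (2 * t + 1).choose t = Nat.centralBinom (t + 1) := by
      rw [Nat.centralBinom_eq_two_mul_choose, show 2 * (t + 1) = 2 * t + 1 + 1 by ring,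
        Nat.choose_succ_succ, Nat.choose_symm_half]
      ring
    rw [← h2] at h1
    have h3 : 4 * ((2 * t + 1) * ((2 * t + 1).choose t) ^ 2) ≤ 4 * 4 ^ (2 * t + 1) := by
      calc 4 * ((2 * t + 1) * ((2 * t + 1).choose t) ^ 2)
          ≤ 4 * ((2 * (t + 1) + 1) * ((2 * t + 1).choose t) ^ 2) :=
            Nat.mul_le_mul_left _ (Nat.mul_le_mul_right _ (by omega))
        _ = (2 * (t + 1) + 1) * (2 * (2 * t + 1).choose t) ^ 2 := by ring
        _ ≤ 16 ^ (t + 1) := h1
        _ = 4 * 4 ^ (2 * t + 1) := by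
            rw [show (16 : ℕ) = 4 ^ 2 by norm_num, ← pow_mul]
            ring
    exact Nat.le_of_mul_le_mul_left h3 (by norm_num)

theorem choose_le_real (m k : ℕ) (hm : 1 ≤ m) :
    ((m.choose k : ℕ) : ℝ) ≤ 2 ^ m / Real.sqrt m := by
  have h0 : 0 < Real.sqrt m := Real.sqrt_pos.2 (by exact_mod_cast hm)
  rw [le_div_iff₀ h0]
  have h1 : (m : ℝ) * ((m.choose k : ℕ) : ℝ) ^ 2 ≤ 4 ^ m := by exact_mod_cast choose_sq m k
  have h2 : (((m.choose k : ℕ) : ℝ) * Real.sqrt m) ^ 2 ≤ (2 ^ m) ^ 2 := by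
    rw [mul_pow, Real.sq_sqrt (by positivity), ← pow_mul, mul_comm m 2, pow_mul]
    norm_num
    linarith
  exact le_of_sq_le_sq h2 (by positivity)

/-- anticoncentration -/
theorem sum_choose_min (m : ℕ) (hm : 1 ≤ m) :
    ∑ k ∈ range (m + 1), ((m.choose k : ℕ) : ℝ) * (2 : ℝ) ^ (min k (m - k)) ≤
      2 ^ m * (Real.sqrt 2) ^ m * (3 / Real.sqrt m) := by
  have h0 : 0 < Real.sqrt m := Real.sqrt_pos.2 (by exact_mod_cast hm)
  calc ∑ k ∈ range (m + 1), ((m.choose k : ℕ) : ℝ) * (2 : ℝ) ^ (min k (m - k))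
      ≤ ∑ k ∈ range (m + 1), 2 ^ m / Real.sqrt m * (2 : ℝ) ^ (min k (m - k)) :=
        sum_le_sum fun k _ => mul_le_mul_of_nonneg_right (choose_le_real m k hm) (by positivity)
    _ = 2 ^ m / Real.sqrt m * ∑ k ∈ range (m + 1), (2 : ℝ) ^ (min k (m - k)) := by rw [mul_sum]
    _ ≤ 2 ^ m / Real.sqrt m * (3 * (Real.sqrt 2) ^ m) := by
        refine mul_le_mul_of_nonneg_left ?_ (by positivity)
        have := sum_min m
        linarith
    _ = _ := by ring

end Sums

section Pot

variable {n : ℕ} {C K : Type} [Field K]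

/-- the potential of a function of `n` bits and a context -/
def Pot (X : Finset (Fin n)) (f : C → (Fin n → Bool) → K) (κ : ℝ) : Prop :=
  ∃ R : Finset (Fin n) → ℕ,
    (∀ c S, RankLe (R (S ∩ X)) (fun p : (Fin n → Bool) × (Fin n → Bool) =>
      f c (mix S p.1 p.2))) ∧
    ∑ S ∈ X.powerset, (R S : ℝ) ≤ 2 ^ X.card * (Real.sqrt 2) ^ X.card * κ

theorem Pot.mono {X : Finset (Fin n)} {f : C → (Fin n → Bool) → K} {κ κ' : ℝ} (hf : Pot X f κ)
    (h : κ ≤ κ') : Pot X f κ' := by
  obtain ⟨R, h1, h2⟩ := hf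
  exact ⟨R, h1, h2.trans (mul_le_mul_of_nonneg_left h (by positivity))⟩

theorem Pot.add {X : Finset (Fin n)} {f g : C → (Fin n → Bool) → K} {κ κ' : ℝ}
    (hf : Pot X f κ) (hg : Pot X g κ') : Pot X (f + g) (κ + κ') := by
  obtain ⟨R, h1, h2⟩ := hf
  obtain ⟨R', h1', h2'⟩ := hg
  refine ⟨fun S => R S + R' S, fun c S => (h1 c S).add (h1' c S), ?_⟩
  push_cast
  rw [sum_add_distrib, mul_add]
  exact add_le_add h2 h2'

theorem Pot.zero {X : Finset (Fin n)} {κ : ℝ} (hκ : 0 ≤ κ) :
    Pot X (0 : C → (Fin n → Bool) → K) κ :=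
  ⟨fun _ => 0, fun _ _ => RankLe.zero, by simp; positivity⟩

theorem Pot.mul {X Y : Finset (Fin n)} (hd : Disjoint X Y) {f g : C → (Fin n → Bool) → K}
    {κ κ' : ℝ} (hκ : 0 ≤ κ) (hf : Pot X f κ) (hg : Pot Y g κ') : Pot (X ∪ Y) (f * g) (κ * κ') := by
  obtain ⟨R, h1, h2⟩ := hf
  obtain ⟨R', h1', h2'⟩ := hg
  refine ⟨fun S => R (S ∩ X) * R' (S ∩ Y), fun c S => ?_, ?_⟩
  · have e1 : S ∩ (X ∪ Y) ∩ X = S ∩ X := by
      rw [inter_assoc, union_inter_cancel_left]
    have e2 : S ∩ (X ∪ Y) ∩ Y = S ∩ Y := by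
      rw [inter_assoc, union_inter_cancel_right]
    beta_reduce
    rw [e1, e2]
    exact (h1 c S).mul (h1' c S)
  · rw [sum_powerset_union hd]
    have h3 : ∀ A ∈ X.powerset, ∀ B ∈ Y.powerset,
        ((R ((A ∪ B) ∩ X) * R' ((A ∪ B) ∩ Y) : ℕ) : ℝ) = (R A : ℝ) * (R' B : ℝ) := by
      intro A hA B hB
      rw [mem_powerset] at hA hB
      have h4 : (A ∪ B) ∩ X = A := by
        rw [union_inter_distrib_right, inter_eq_left.2 hA,
          disjoint_iff_inter_eq_empty.1 (hd.symm.mono_left hB), union_empty]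
      have h5 : (A ∪ B) ∩ Y = B := by
        rw [union_inter_distrib_right, inter_eq_left.2 hB,
          disjoint_iff_inter_eq_empty.1 (hd.mono_left hA), empty_union]
      rw [h4, h5, Nat.cast_mul]
    rw [sum_congr rfl fun A hA => sum_congr rfl fun B hB => h3 A hA B hB, ← sum_mul_sum,
      card_union_of_disjoint hd, pow_add, pow_add]
    have h6 : 0 ≤ ∑ S ∈ Y.powerset, (R' S : ℝ) := sum_nonneg fun _ _ => Nat.cast_nonneg _
    calc (∑ S ∈ X.powerset, (R S : ℝ)) * ∑ S ∈ Y.powerset, (R' S : ℝ)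
        ≤ (2 ^ X.card * (Real.sqrt 2) ^ X.card * κ) * (2 ^ Y.card * (Real.sqrt 2) ^ Y.card * κ') :=
          mul_le_mul h2 h2' h6 (by positivity)
      _ = _ := by ring

theorem pot_one (X : Finset (Fin n)) :
    Pot X (1 : C → (Fin n → Bool) → K) (((Real.sqrt 2) ^ X.card)⁻¹) := by
  refine ⟨fun _ => 1, fun _ _ => RankLe.one, ?_⟩
  have h0 : (0 : ℝ) < (Real.sqrt 2) ^ X.card := by positivity
  simp only [Nat.cast_one, sum_const, card_powerset, nsmul_eq_mul, mul_one, Nat.cast_pow,
    Nat.cast_ofNat]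
  rw [mul_assoc, mul_inv_cancel₀ h0.ne', mul_one]

/-- change of the ambient set -/
theorem Pot.ambient {X Y : Finset (Fin n)} (hXY : X ⊆ Y) {f : C → (Fin n → Bool) → K} {κ : ℝ}
    (hκ : 0 ≤ κ) (hf : Pot X f κ) :
    Pot Y f (κ * ((Real.sqrt 2) ^ (Y \ X).card)⁻¹) := by
  have h := Pot.mul (disjoint_sdiff : Disjoint X (Y \ X)) hκ hf (pot_one (C := C) (K := K) (Y \ X))
  rwa [union_sdiff_of_subset hXY, mul_one] at h

/-- dependence on the coordinates in `X` only -/
def Dep (X : Finset (Fin n)) (f : C → (Fin n → Bool) → K) : Prop :=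
  ∀ c x x', (∀ a ∈ X, x a = x' a) → f c x = f c x'

/-- functions of few rows coordinates have small rank -/
theorem rank_left {X : Finset (Fin n)} {f : C → (Fin n → Bool) → K} (hf : Dep X f) (c : C)
    (S : Finset (Fin n)) : RankLe (2 ^ (S ∩ X).card) (fun p : (Fin n → Bool) × (Fin n → Bool) =>
      f c (mix S p.1 p.2)) := by
  classical
  refine rankLe_of_index (ι := ↥(S ∩ X) → Bool)
    (by rw [Fintype.card_fun, Fintype.card_bool, Fintype.card_coe])
    (fun u y => if (fun a : ↥(S ∩ X) => y a) = u then 1 else 0)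
    (fun u z => f c (fun a => if h : a ∈ S ∩ X then u ⟨a, h⟩ else z a)) ?_
  funext p
  rw [Fintype.sum_eq_single (fun a : ↥(S ∩ X) => p.1 a)]
  · rw [if_pos rfl, one_mul]
    refine hf c _ _ fun a ha => ?_
    unfold mix
    by_cases h : a ∈ S
    · rw [if_pos h, dif_pos (mem_inter.2 ⟨h, ha⟩)]
    · rw [if_neg h, dif_neg fun h' => h (mem_inter.1 h').1]
  · intro u hu
    rw [if_neg (Ne.symm hu), zero_mul]

theorem rank_right {X : Finset (Fin n)} {f : C → (Fin n → Bool) → K} (hf : Dep X f) (c : C)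
    (S : Finset (Fin n)) : RankLe (2 ^ (X \ S).card) (fun p : (Fin n → Bool) × (Fin n → Bool) =>
      f c (mix S p.1 p.2)) := by
  classical
  refine rankLe_of_index (ι := ↥(X \ S) → Bool)
    (by rw [Fintype.card_fun, Fintype.card_bool, Fintype.card_coe])
    (fun u y => f c (fun a => if h : a ∈ X \ S then u ⟨a, h⟩ else y a))
    (fun u z => if (fun a : ↥(X \ S) => z a) = u then 1 else 0) ?_
  funext p
  rw [Fintype.sum_eq_single (fun a : ↥(X \ S) => p.2 a)]
  · rw [if_pos rfl, mul_one]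
    refine hf c _ _ fun a ha => ?_
    unfold mix
    by_cases h : a ∈ S
    · rw [if_pos h, dif_neg fun h' => (mem_sdiff.1 h').2 h]
    · rw [if_neg h, dif_pos (mem_sdiff.2 ⟨ha, h⟩)]
  · intro u hu
    rw [if_neg (Ne.symm hu), mul_zero]

/-- any function of the coordinates in `X` -/
theorem pot_dep {X : Finset (Fin n)} (hX : 1 ≤ X.card) {f : C → (Fin n → Bool) → K}
    (hf : Dep X f) : Pot X f (3 / Real.sqrt X.card) := by
  refine ⟨fun S => 2 ^ (min S.card (X.card - S.card)), fun c S => ?_, ?_⟩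
  · beta_reduce
    rcases le_total (S ∩ X).card (X.card - (S ∩ X).card) with h | h
    · rw [min_eq_left h]
      exact rank_left hf c S
    · rw [min_eq_right h]
      have h1 : X.card - (S ∩ X).card = (X \ S).card := by
        rw [inter_comm, card_sdiff, inter_comm]
      rw [h1]
      exact rank_right hf c S
  · have h1 := sum_powerset_apply_card (fun k => (2 : ℝ) ^ (min k (X.card - k))) (x := X)
    have h2 := sum_choose_min X.card hX
    push_cast
    rw [h1]
    refine (sum_le_sum fun k _ => ?_).trans h2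
    rw [nsmul_eq_mul]

theorem pot_dep' {X : Finset (Fin n)} {f : C → (Fin n → Bool) → K} (hf : Dep X f) : Pot X f 1 := by
  refine ⟨fun S => 2 ^ (min S.card (X.card - S.card)), fun c S => ?_, ?_⟩
  · beta_reduce
    rcases le_total (S ∩ X).card (X.card - (S ∩ X).card) with h | h
    · rw [min_eq_left h]
      exact rank_left hf c S
    · rw [min_eq_right h]
      have h1 : X.card - (S ∩ X).card = (X \ S).card := by
        rw [inter_comm, card_sdiff, inter_comm]
      rw [h1]
      exact rank_right hf c S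
  · push_cast
    have h1 : ∀ S ∈ X.powerset, (2 : ℝ) ^ (min S.card (X.card - S.card)) ≤
        (Real.sqrt 2) ^ X.card := by
      intro S hS
      have h2 : (2 : ℝ) = (Real.sqrt 2) ^ 2 := (Real.sq_sqrt (by norm_num)).symm
      conv_lhs => rw [h2, ← pow_mul]
      refine pow_le_pow_right₀ (Real.one_le_sqrt.2 (by norm_num)) ?_
      omega
    refine (sum_le_sum h1).trans (le_of_eq ?_)
    rw [sum_const, card_powerset, nsmul_eq_mul]
    push_cast
    ring

end Pot

end Pool.Agent.Helper87.MS
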